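import Pool.Agent.helper75.WB.SpecI

set_option autoImplicit false

namespace Pool.Agent.WB

open Finset

theorem IF1 : IF1_stmt := by
  classical
  intro q q' V x y w G t τ hF hτ e he
  obtain ⟨h1, h2, h3⟩ := hF
  unfold FF at he
  rw [Finset.mem_image] at he
  obtain ⟨⟨g, s⟩, hgs, rfl⟩ := he
  rw [Finset.mem_product, Finset.mem_Icc] at hgs
  obtain ⟨hg, hs1, hs2⟩ := hgs
  obtain ⟨hp, hp', hpr, u, v, huv, hu1, hu2⟩ := h2 g hg
  have ht := abs_le.mp (hτ g hg)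
  have e1 := (h1 _ hp).2.1
  have e2 := (h1 _ hp').2.1
  simp only at hg hs1 hs2 ⊢
  refine ⟨?_, ?_, ⟨u + s * q', v - s * q, ?_, ?_⟩, g, hg, ?_⟩
  · unfold FA
    exact Finset.mem_image.mpr ⟨(g.2.1, s), Finset.mem_product.mpr
      ⟨hp, Finset.mem_Icc.mpr ⟨hs1, hs2⟩⟩, rfl⟩
  · unfold FA
    refine Finset.mem_image.mpr ⟨(g.2.2, s + t g), Finset.mem_product.mpr
      ⟨hp', Finset.mem_Icc.mpr ⟨?_, ?_⟩⟩, rfl⟩
    · push_cast
      linarith [ht.1]
    · push_cast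
      linarith [ht.2]
  · change y g.2.1 * (u + s * q') - x g.2.1 * (v - s * q) = w g.2.1 + s * (g.2.1 : ℤ)
    rw [← e1, ← hu1]
    ring
  · change y g.2.2 * (u + s * q') - x g.2.2 * (v - s * q) = w g.2.2 + (s + t g) * (g.2.2 : ℤ)
    have h5 : w g.2.2 = y g.2.2 * u - x g.2.2 * v - t g * (g.2.2 : ℤ) := by linarith
    rw [h5, ← e2]
    ring
  · rfl

end Pool.Agent.WB
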